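import Pool.Agent.Q248.KN.Signed

/-!
# The signed `[0,s]`-critical number of cyclic groups of odd order divisible by `3`
-/

namespace Pool.Agent.Results.MP_33eb55_co.OddMultipleOfThree

open Pool.Agent.Q248.KN

/-- The least `m` such that every `m`-element subset `A` of `ℤ_n` has `[0,s]_±A = ℤ_n`. -/
noncomputable def chiExact (n s : ℕ) : ℕ :=
  sInf {m : ℕ | ∀ A : Finset (ZMod n), A.card = m → signedUpTo s A = Set.univ}

theorem mono {n s : ℕ} {A B : Finset (ZMod n)} (hAB : A ⊆ B) (hA : signedUpTo s A = Set.univ) :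
    signedUpTo s B = Set.univ := by
  classical
  rw [Set.eq_univ_iff_forall] at hA ⊢
  intro x
  obtain ⟨l, hl, hx⟩ := mem_signedUpTo.1 (hA x)
  rw [mem_signedUpTo]
  refine ⟨fun a => if a ∈ A then l a else 0, ?_, ?_⟩
  · have h1 : ∑ a ∈ B, (if a ∈ A then l a else 0).natAbs = ∑ a ∈ A, (l a).natAbs := by
      rw [← Finset.sum_subset hAB (fun a _ ha => by rw [if_neg ha]; rfl)]
      exact Finset.sum_congr rfl (fun a ha => by rw [if_pos ha])
    exact h1.le.trans hl
  · have h1 : ∑ a ∈ B, (if a ∈ A then l a else 0) • a = ∑ a ∈ A, l a • a := by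
      rw [← Finset.sum_subset hAB (fun a _ ha => by rw [if_neg ha, zero_smul])]
      exact Finset.sum_congr rfl (fun a ha => by rw [if_pos ha])
    exact hx.trans h1.symm

theorem chiExact_eq (n s : ℕ) : chiExact n s = chi n s := by
  unfold chiExact chi
  congr 1
  ext m
  constructor
  · intro h A hA
    obtain ⟨B, hB, hBc⟩ := Finset.exists_subset_card_eq hA
    exact mono hB (h B hBc)
  · intro h A hA
    exact h A hA.ge

/-- For every odd `n` divisible by `3` and every `s ≥ 3`,
`χ_±(ℤ_n, [0,s]) = v_±(n, s) + 1 = n / 3 + 1`. -/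
theorem result (n s : ℕ) (hodd : Odd n) (h3 : 3 ∣ n) (hs : 3 ≤ s) :
    (chiExact n s : ℤ) = vpm n s + 1 ∧ chiExact n s = n / 3 + 1 := by
  have hn : 0 < n := hodd.pos
  have h1 := chi_eq n s hn (by omega)
  rw [chiExact_eq]
  refine ⟨h1, ?_⟩
  obtain ⟨m, hm⟩ := h3
  have h2 : vpm n s = m := by
    apply le_antisymm
    · apply csSup_le
      · exact ⟨_, n, 1, mul_one n, rfl⟩
      · rintro x ⟨d, e, hde, rfl⟩
        have hd0 : 0 < d := Nat.pos_of_ne_zero (by rintro rfl; omega)
        have he0 : 0 < e := Nat.pos_of_ne_zero (by rintro rfl; omega)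
        have hdodd : Odd d := by
          rw [← hde] at hodd
          exact (Nat.odd_mul.1 hodd).1
        by_cases h0 : ((d : ℤ) - 2) / (2 * (s : ℤ)) < 0
        · have h4 : (2 * (((d : ℤ) - 2) / (2 * (s : ℤ))) + 1) * (e : ℤ) ≤ 0 * e :=
            mul_le_mul_of_nonneg_right (by omega) (by positivity)
          have h5 : (0 : ℤ) ≤ m := by positivity
          linarith
        · push Not at h0
          obtain ⟨t, ht⟩ := Int.eq_ofNat_of_zero_le h0
          have h2 : (t : ℤ) * (2 * (s : ℤ)) ≤ (d : ℤ) - 2 := by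
            rw [← Int.le_ediv_iff_mul_le (by positivity)]
            exact ht.ge
          have h3 : 2 * s * t + 2 ≤ d := by
            have : ((2 * s * t + 2 : ℕ) : ℤ) ≤ d := by push_cast; linarith
            exact_mod_cast this
          have h6 : 6 * t + 2 ≤ d := by nlinarith
          obtain ⟨c, hc⟩ := hdodd
          have h7 : 3 * (2 * t + 1) ≤ d := by omega
          have h8 : 3 * ((2 * t + 1) * e) ≤ 3 * m := by
            calc 3 * ((2 * t + 1) * e) = 3 * (2 * t + 1) * e := by ring
              _ ≤ d * e := Nat.mul_le_mul_right _ h7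
              _ = 3 * m := by rw [hde, hm]
          rw [ht]
          have h9 : (2 * t + 1) * e ≤ m := by omega
          have : (((2 * t + 1) * e : ℕ) : ℤ) ≤ m := by exact_mod_cast h9
          push_cast at this ⊢
          exact this
    · have h4 := le_vpm n s hn (by omega) 3 m hm.symm
      have h5 : (((3 : ℕ) : ℤ) - 2) / (2 * (s : ℤ)) = 0 := by
        apply Int.ediv_eq_zero_of_lt
        · norm_num
        · push_cast
          have : (3 : ℤ) ≤ s := by exact_mod_cast hs
          linarith
      rw [h5] at h4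
      linarith
  rw [h2] at h1
  have h3 : n / 3 = m := by omega
  rw [h3]
  exact_mod_cast h1

end Pool.Agent.Results.MP_33eb55_co.OddMultipleOfThree
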